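import Pool.Agent.W859.AK.Stm

set_option autoImplicit false

open Finset

namespace Pool.Agent.W131.AK
open Pool.Agent.W904.AK Pool.Agent.W859.AK

section vec

variable {W : Type} [AddCommGroup W] [Module ℚ W]

lemma v1 (x a0 a1 : W) (z0 z1 τ : ℚ) (hτ : τ ≠ 0) (hz1 : z1 ≠ 0) (h : τ ≠ z0) :
    x + z0 • a0 + z1 • a1 = (z0 / τ) • (x + τ • a0) +
      (z1 / (z1 * τ / (τ - z0))) • (x + (z1 * τ / (τ - z0)) • a1) := by
  have h' : τ - z0 ≠ 0 := sub_ne_zero.mpr h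
  match_scalars <;> field_simp <;> ring

lemma v2 (x a0 a1 : W) (s z0 z1 τ : ℚ) (hs : s ≠ 0) (hτ : τ ≠ 0) (hz1 : z1 ≠ 0) (h : τ ≠ z0)
    (hd : τ - z0 - z1 ≠ 0) :
    (1 - th s z0 z1 τ) • (x + s • a0) + th s z0 z1 τ • (x + s • a1) =
      (s * (1 - th s z0 z1 τ) / τ) • (x + τ • a0) +
      (s * th s z0 z1 τ / (z1 * τ / (τ - z0))) • (x + (z1 * τ / (τ - z0)) • a1) := by
  have h' : τ - z0 ≠ 0 := sub_ne_zero.mpr h
  unfold th
  match_scalars <;> field_simp <;> ring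

/-- `F_τ` in terms of `S`, `S'` -/
lemma v3 (y d0 d1 : W) (s θ σ : ℚ) (hs : s ≠ 0) (hθ : θ ≠ 0) (hσ : σ ≠ 0)
    (h : σ - s * (1 - θ) ≠ 0) :
    (1 - θ) • (y + s • d0) + θ • (y + s • d1) = (s * (1 - θ) / σ) • (y + σ • d0) +
      (s * θ / (s * θ * σ / (σ - s * (1 - θ)))) • (y + (s * θ * σ / (σ - s * (1 - θ))) • d1) := by
  match_scalars <;> field_simp <;> ring

/-- `F2` in terms of `S`, `S'` -/
lemma v4 (y d0 d1 : W) (s t θ σ : ℚ) (hs : s ≠ 0) (ht : t ≠ 0) (hθ : θ ≠ 0) (hσ : σ ≠ 0)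
    (hσs : σ - s ≠ 0) (h : σ - s * (1 - θ) ≠ 0) :
    y + (t * (1 - th2 s t θ σ)) • d0 + (t * th2 s t θ σ) • d1 =
      (t * (1 - th2 s t θ σ) / σ) • (y + σ • d0) +
      (t * th2 s t θ σ / (s * θ * σ / (σ - s * (1 - θ)))) •
        (y + (s * θ * σ / (σ - s * (1 - θ))) • d1) := by
  unfold th2
  match_scalars <;> field_simp <;> ring

/-- `F2` in terms of `R`, `R'` -/
lemma v5 (v g0 g1 : W) (t θ2 χ : ℚ) (ht : t ≠ 0) (hθ : θ2 ≠ 0) (hχ : χ ≠ 0)
    (h : χ - t * (1 - θ2) ≠ 0) :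
    (1 - θ2) • (v + t • g0) + θ2 • (v + t • g1) = (t * (1 - θ2) / χ) • (v + χ • g0) +
      (t * θ2 / (t * θ2 * χ / (χ - t * (1 - θ2)))) •
        (v + (t * θ2 * χ / (χ - t * (1 - θ2))) • g1) := by
  match_scalars <;> field_simp <;> ring

/-- `κ` in terms of `S`, `S'`, `R` -/
lemma v6 (y d0 d1 v g0 : W) (s t k ε θ σ χ : ℚ) (hs : s ≠ 0) (hθ : θ ≠ 0) (hσ : σ ≠ 0)
    (h : σ - s * (1 - θ) ≠ 0) (hχ : χ - t ≠ 0)
    (hdef : (χ - t) * ((k - θ) * (σ - s)) = -(ε * θ * (σ - t)))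
    (hE : y + t • d0 = v + t • g0) :
    (1 - k) • (y + s • d0) + k • (y + s • d1) + ε • g0 =
      ((s * (1 - k) - ε * t / (χ - t)) / σ) • (y + σ • d0) +
      (s * k / (s * θ * σ / (σ - s * (1 - θ)))) • (y + (s * θ * σ / (σ - s * (1 - θ))) • d1) +
      (ε / (χ - t)) • (v + χ • g0) := by
  have h1 : ε • g0 = (ε / (χ - t)) • (v + χ • g0) - (ε / (χ - t)) • (y + t • d0) := by
    rw [hE]
    match_scalars <;> field_simp <;> ring
  rw [h1]
  have h2 : ((s * (1 - k) - ε * t / (χ - t)) / σ) + (s * k / (s * θ * σ / (σ - s * (1 - θ)))) =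
      1 - ε / (χ - t) := by
    field_simp
    linear_combination hdef
  have h3 : (1 - k) • (y + s • d0) + k • (y + s • d1) - (ε / (χ - t)) • (y + t • d0) =
      (1 - ε / (χ - t)) • y + (s * (1 - k) - ε * t / (χ - t)) • d0 + (s * k) • d1 := by
    match_scalars <;> field_simp <;> ring
  have h4 : ((s * (1 - k) - ε * t / (χ - t)) / σ) • (y + σ • d0) +
      (s * k / (s * θ * σ / (σ - s * (1 - θ)))) • (y + (s * θ * σ / (σ - s * (1 - θ))) • d1) =
      (((s * (1 - k) - ε * t / (χ - t)) / σ) + (s * k / (s * θ * σ / (σ - s * (1 - θ))))) • y +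
      (s * (1 - k) - ε * t / (χ - t)) • d0 + (s * k) • d1 := by
    match_scalars <;> field_simp
  rw [h2] at h4
  rw [h4, ← h3]
  abel

end vec

lemma det_of {Ω α β : Type} [Fintype Ω] {q : Ω → ℝ} {f : Ω → α} {g : Ω → β} (φ : α → β)
    (h : ∀ z, q z ≠ 0 → g z = φ (f z)) : Det q f g := by
  intro x y hx hy hf
  rw [h x hx, h y hy, hf]

/-- the direction determines the line -/
lemma det_line {Ω Ω' W : Type} [Fintype Ω] [Fintype Ω'] {p : Ω → ℝ} {X D : Ω → W}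
    (hdet : Det p D X) {q : Ω' → ℝ} (hq : IsLaw q) {c : Ω' → Ω} (hc : im q c = p) {z z' : Ω'}
    (hz : q z ≠ 0) (hz' : q z' ≠ 0) (h : D (c z) = D (c z')) : X (c z) = X (c z') := by
  apply hdet _ _ _ _ h
  · have := im_pos hq c hz
    rw [hc] at this
    exact this.ne'
  · have := im_pos hq c hz'
    rw [hc] at this
    exact this.ne'

lemma smul_cancel {W : Type} [AddCommGroup W] [Module ℚ W] {a : ℚ} (ha : a ≠ 0) {u v : W}
    (h : a • u = a • v) : u = v := by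
  have := congrArg (fun w => a⁻¹ • w) h
  simpa [smul_smul, inv_mul_cancel₀ ha] using this

/-- step (1): `Z` and the line `n0` determine everything -/
lemma detA {Ω Ω' W : Type} [Fintype Ω] [Fintype Ω'] [AddCommGroup W] [Module ℚ W] {p : Ω → ℝ}
    {X D : Ω → W} {s t : ℚ} {HQ HW : ℝ} {q : Ω' → ℝ} {c0 c1 n0 n1 f0 f1 : Ω' → Ω}
    (hdet : Det p D X) (hZ : ZD p X D s t HQ HW q c0 c1 n0 n1 f0 f1) (k z0 z1 ε : ℚ)
    (hs : s ≠ 0) (ht : t ≠ 0) (hst : s ≠ t) (hz1 : z1 ≠ 0) (hε : ε ≠ 0) :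
    Det q (fun z => ((X (n0 z) + z0 • D (n0 z) + z1 • D (n1 z),
        (1 - k) • pos X D s (c0 z) + k • pos X D s (c1 z) + ε • D (f0 z)), D (n0 z)))
      (fun z => (D (c0 z), D (c1 z), D (n0 z), D (n1 z), D (f0 z), D (f1 z))) := by
  intro z z' hz hz' h
  simp only [Prod.mk.injEq] at h
  obtain ⟨⟨hF, hκ⟩, ha0⟩ := h
  have hN := det_line hdet hZ.law hZ.mn0 hz hz' ha0
  have ha1 : D (n1 z) = D (n1 z') := by
    rw [hN, ha0] at hF
    exact smul_cancel hz1 (add_left_cancel hF)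
  have hC : pos X D s (c0 z) = pos X D s (c0 z') := by
    rw [hZ.s0 z hz, hZ.s0 z' hz']
    unfold pos
    rw [hN, ha0]
  have hC' : pos X D s (c1 z) = pos X D s (c1 z') := by
    rw [hZ.s1 z hz, hZ.s1 z' hz']
    unfold pos
    rw [← hZ.iN z hz, ← hZ.iN z' hz', hN, ha1]
  have hg0 : D (f0 z) = D (f0 z') := by
    rw [hC, hC'] at hκ
    exact smul_cancel hε (add_left_cancel hκ)
  have hV := det_line hdet hZ.law hZ.mf0 hz hz' hg0
  have hE : pos X D t (c0 z) = pos X D t (c0 z') := by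
    rw [hZ.t0 z hz, hZ.t0 z' hz']
    unfold pos
    rw [hV, hg0]
  have hd0 : D (c0 z) = D (c0 z') := by
    have h1 : (s - t) • D (c0 z) = (s - t) • D (c0 z') := by
      unfold pos at hC hE
      have e1 : (s - t) • D (c0 z) = (X (c0 z) + s • D (c0 z)) - (X (c0 z) + t • D (c0 z)) := by
        module
      have e2 : (s - t) • D (c0 z') = (X (c0 z') + s • D (c0 z')) - (X (c0 z') + t • D (c0 z')) := by
        module
      rw [e1, e2, hC, hE]
    exact smul_cancel (sub_ne_zero.mpr hst) h1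
  have hy := det_line hdet hZ.law hZ.mc0 hz hz' hd0
  have hd1 : D (c1 z) = D (c1 z') := by
    unfold pos at hC'
    rw [← hZ.ic z hz, ← hZ.ic z' hz', hy] at hC'
    exact smul_cancel hs (add_left_cancel hC')
  have hg1 : D (f1 z) = D (f1 z') := by
    have h1 : pos X D t (f1 z) = pos X D t (f1 z') := by
      rw [← hZ.t1 z hz, ← hZ.t1 z' hz']
      unfold pos
      rw [← hZ.ic z hz, ← hZ.ic z' hz', hy, hd1]
    unfold pos at h1
    rw [← hZ.iF z hz, ← hZ.iF z' hz', hV] at h1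
    exact smul_cancel ht (add_left_cancel h1)
  simp only [hd0, hd1, ha0, ha1, hg0, hg1]

/-- step (3): `λ` and the line `c0` determine the centre pair and the far pair -/
lemma detB {Ω Ω' W : Type} [Fintype Ω] [Fintype Ω'] [AddCommGroup W] [Module ℚ W] {p : Ω → ℝ}
    {X D : Ω → W} {s t : ℚ} {HQ HW : ℝ} {q : Ω' → ℝ} {c0 c1 n0 n1 f0 f1 : Ω' → Ω}
    (hdet : Det p D X) (hZ : ZD p X D s t HQ HW q c0 c1 n0 n1 f0 f1) (k θ ε : ℚ)
    (hs : s ≠ 0) (ht : t ≠ 0) (hθ : θ ≠ 0) (hε : ε ≠ 0) :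
    Det q (fun z => (((1 - θ) • pos X D s (c0 z) + θ • pos X D s (c1 z),
        (1 - k) • pos X D s (c0 z) + k • pos X D s (c1 z) + ε • D (f0 z)), D (c0 z)))
      (fun z => (D (c0 z), D (c1 z), D (f0 z), D (f1 z))) := by
  intro z z' hz hz' h
  simp only [Prod.mk.injEq] at h
  obtain ⟨⟨hF, hκ⟩, hd0⟩ := h
  have hy := det_line hdet hZ.law hZ.mc0 hz hz' hd0
  have hC : pos X D s (c0 z) = pos X D s (c0 z') := by
    unfold pos; rw [hy, hd0]
  have hC' : pos X D s (c1 z) = pos X D s (c1 z') := by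
    rw [hC] at hF
    exact smul_cancel hθ (add_left_cancel hF)
  have hd1 : D (c1 z) = D (c1 z') := by
    unfold pos at hC'
    rw [← hZ.ic z hz, ← hZ.ic z' hz', hy] at hC'
    exact smul_cancel hs (add_left_cancel hC')
  have hg0 : D (f0 z) = D (f0 z') := by
    rw [hC, hC'] at hκ
    exact smul_cancel hε (add_left_cancel hκ)
  have hV := det_line hdet hZ.law hZ.mf0 hz hz' hg0
  have hg1 : D (f1 z) = D (f1 z') := by
    have h1 : pos X D t (f1 z) = pos X D t (f1 z') := by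
      rw [← hZ.t1 z hz, ← hZ.t1 z' hz']
      unfold pos
      rw [← hZ.ic z hz, ← hZ.ic z' hz', hy, hd1]
    unfold pos at h1
    rw [← hZ.iF z hz, ← hZ.iF z' hz', hV] at h1
    exact smul_cancel ht (add_left_cancel h1)
  simp only [hd0, hd1, hg0, hg1]

/-- step (4) -/
lemma stepB {Ω Ω' W : Type} [Fintype Ω] [Fintype Ω'] [AddCommGroup W] [Module ℚ W] {p : Ω → ℝ}
    {X D : Ω → W} {s t : ℚ} {HQ HW h : ℝ} {q : Ω' → ℝ} {c0 c1 n0 n1 f0 f1 : Ω' → Ω}
    (hZ : ZD p X D s t HQ HW q c0 c1 n0 n1 f0 f1) (k θ ε σ χ : ℚ)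
    (hs : s ≠ 0) (ht : t ≠ 0) (hθ : θ ≠ 0) (hσ : σ ≠ 0) (hσs : σ ≠ s) (hσt : σ ≠ t)
    (hkθ : k ≠ θ) (h4 : σ - s * (1 - θ) ≠ 0)
    (hχdef : χ = t - ε * θ * (σ - t) / ((k - θ) * (σ - s)))
    (hχ1 : χ ≠ t * (1 - th2 s t θ σ)) (hχt : χ ≠ t) (hχ0 : χ ≠ 0)
    (hh1 : H p (pos X D σ) ≤ h) (hh2 : H p (pos X D (s * θ * σ / (σ - s * (1 - θ)))) ≤ h)
    (hh3 : H p (pos X D χ) ≤ h)
    (hh4 : H p (pos X D (t * th2 s t θ σ * χ / (χ - t * (1 - th2 s t θ σ)))) ≤ h) :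
    H q (fun z => (((1 - θ) • pos X D s (c0 z) + θ • pos X D s (c1 z),
        (1 - k) • pos X D s (c0 z) + k • pos X D s (c1 z) + ε • D (f0 z)),
        X (c0 z) + σ • D (c0 z))) ≤
      4 * h - phi p X D (t * (1 - th2 s t θ σ)) (t * th2 s t θ σ) := by
  have hσs' : σ - s ≠ 0 := sub_ne_zero.mpr hσs
  have hσt' : σ - t ≠ 0 := sub_ne_zero.mpr hσt
  have hkθ' : k - θ ≠ 0 := sub_ne_zero.mpr hkθ
  have hχt' : χ - t ≠ 0 := sub_ne_zero.mpr hχt
  have hχ1' : χ - t * (1 - th2 s t θ σ) ≠ 0 := sub_ne_zero.mpr hχ1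
  have hθ2 : th2 s t θ σ ≠ 0 := by
    unfold th2
    exact div_ne_zero (mul_ne_zero (mul_ne_zero hs hθ) hσt') (mul_ne_zero ht hσs')
  have hdef : (χ - t) * ((k - θ) * (σ - s)) = -(ε * θ * (σ - t)) := by
    rw [hχdef]
    field_simp
    ring
  set σ' : ℚ := s * θ * σ / (σ - s * (1 - θ)) with hσ'
  set χ' : ℚ := t * th2 s t θ σ * χ / (χ - t * (1 - th2 s t θ σ)) with hχ'
  set F2 : Ω' → W := fun z => X (c0 z) + (t * (1 - th2 s t θ σ)) • D (c0 z) +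
    (t * th2 s t θ σ) • D (c1 z) with hF2
  have e1 : H q F2 = phi p X D (t * (1 - th2 s t θ σ)) (t * th2 s t θ σ) := hZ.phic _ _
  -- F2 from S, S'
  have f1' : ∀ z, q z ≠ 0 → F2 z = (t * (1 - th2 s t θ σ) / σ) • pos X D σ (c0 z) +
      (t * th2 s t θ σ / σ') • pos X D σ' (c1 z) := by
    intro z hz
    simp only [hF2]
    unfold pos
    rw [← hZ.ic z hz]
    exact v4 _ _ _ s t θ σ hs ht hθ hσ hσs' h4
  have f2' : ∀ z, q z ≠ 0 → F2 z = (t * (1 - th2 s t θ σ) / χ) • pos X D χ (f0 z) +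
      (t * th2 s t θ σ / χ') • pos X D χ' (f1 z) := by
    intro z hz
    have e2 : F2 z = (1 - th2 s t θ σ) • pos X D t (c0 z) + th2 s t θ σ • pos X D t (c1 z) := by
      simp only [hF2]
      unfold pos
      rw [← hZ.ic z hz]
      module
    rw [e2, hZ.t0 z hz, hZ.t1 z hz]
    unfold pos
    rw [← hZ.iF z hz]
    exact v5 _ _ _ t (th2 s t θ σ) χ ht hθ2 hχ0 hχ1'
  have f3' : ∀ z, q z ≠ 0 → (1 - θ) • pos X D s (c0 z) + θ • pos X D s (c1 z) =
      (s * (1 - θ) / σ) • pos X D σ (c0 z) + (s * θ / σ') • pos X D σ' (c1 z) := by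
    intro z hz
    unfold pos
    rw [← hZ.ic z hz]
    exact v3 _ _ _ s θ σ hs hθ hσ h4
  have f4' : ∀ z, q z ≠ 0 →
      (1 - k) • pos X D s (c0 z) + k • pos X D s (c1 z) + ε • D (f0 z) =
      ((s * (1 - k) - ε * t / (χ - t)) / σ) • pos X D σ (c0 z) +
      (s * k / σ') • pos X D σ' (c1 z) + (ε / (χ - t)) • pos X D χ (f0 z) := by
    intro z hz
    have hE := hZ.t0 z hz
    unfold pos at hE ⊢
    rw [← hZ.ic z hz]
    exact v6 _ _ _ _ _ s t k ε θ σ χ hs hθ hσ h4 hχt' hdef hE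
  have hsub := submod' hZ.law
    (f := fun z => (pos X D σ (c0 z), pos X D σ' (c1 z)))
    (g := fun z => (pos X D χ (f0 z), pos X D χ' (f1 z))) (h := F2)
    (k := fun z => (((1 - θ) • pos X D s (c0 z) + θ • pos X D s (c1 z),
        (1 - k) • pos X D s (c0 z) + k • pos X D s (c1 z) + ε • D (f0 z)),
        X (c0 z) + σ • D (c0 z)))
    (det_of (fun u => (t * (1 - th2 s t θ σ) / σ) • u.1 + (t * th2 s t θ σ / σ') • u.2) f1')
    (det_of (fun u => (t * (1 - th2 s t θ σ) / χ) • u.1 + (t * th2 s t θ σ / χ') • u.2) f2')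
    (det_of (fun u => (((s * (1 - θ) / σ) • u.1.1 + (s * θ / σ') • u.1.2,
      ((s * (1 - k) - ε * t / (χ - t)) / σ) • u.1.1 + (s * k / σ') • u.1.2 +
        (ε / (χ - t)) • u.2.1), u.1.1)) (by
        intro z hz
        simp only
        rw [f3' z hz, f4' z hz]
        rfl))
  have g1 : H q (fun z => (pos X D σ (c0 z), pos X D σ' (c1 z))) ≤ 2 * h := by
    have := subadd hZ.law (f := fun z => pos X D σ (c0 z)) (g := fun z => pos X D σ' (c1 z))
      (k := fun z => (pos X D σ (c0 z), pos X D σ' (c1 z))) (Det.refl _ _)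
    have e3 : H q (fun z => pos X D σ (c0 z)) = H p (pos X D σ) := H_map hZ.mc0 (pos X D σ)
    have e4 : H q (fun z => pos X D σ' (c1 z)) = H p (pos X D σ') := H_map hZ.mc1 (pos X D σ')
    rw [e3, e4] at this
    linarith
  have g2 : H q (fun z => (pos X D χ (f0 z), pos X D χ' (f1 z))) ≤ 2 * h := by
    have := subadd hZ.law (f := fun z => pos X D χ (f0 z)) (g := fun z => pos X D χ' (f1 z))
      (k := fun z => (pos X D χ (f0 z), pos X D χ' (f1 z))) (Det.refl _ _)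
    have e3 : H q (fun z => pos X D χ (f0 z)) = H p (pos X D χ) := H_map hZ.mf0 (pos X D χ)
    have e4 : H q (fun z => pos X D χ' (f1 z)) = H p (pos X D χ') := H_map hZ.mf1 (pos X D χ')
    rw [e3, e4] at this
    linarith
  rw [e1] at hsub
  linarith

/-- step (2) -/
lemma stepA {Ω Ω' W : Type} [Fintype Ω] [Fintype Ω'] [AddCommGroup W] [Module ℚ W] {p : Ω → ℝ}
    {X D : Ω → W} {s t : ℚ} {HQ HW h : ℝ} {q : Ω' → ℝ} {c0 c1 n0 n1 f0 f1 : Ω' → Ω}
    (hZ : ZD p X D s t HQ HW q c0 c1 n0 n1 f0 f1) (k z0 z1 ε τ : ℚ)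
    (hs : s ≠ 0) (hz1 : z1 ≠ 0) (hτ : τ ≠ 0) (hτz : τ ≠ z0) (hd : τ - z0 - z1 ≠ 0)
    (hh1 : H p (pos X D τ) ≤ h) (hh2 : H p (pos X D (z1 * τ / (τ - z0))) ≤ h) :
    H q (fun z => ((X (n0 z) + z0 • D (n0 z) + z1 • D (n1 z),
        (1 - k) • pos X D s (c0 z) + k • pos X D s (c1 z) + ε • D (f0 z)),
        X (n0 z) + τ • D (n0 z))) ≤
      2 * h + H q (fun z => ((1 - th s z0 z1 τ) • pos X D s (c0 z) +
          th s z0 z1 τ • pos X D s (c1 z),
        (1 - k) • pos X D s (c0 z) + k • pos X D s (c1 z) + ε • D (f0 z))) -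
      phi p X D (s * (1 - th s z0 z1 τ)) (s * th s z0 z1 τ) := by
  set θ := th s z0 z1 τ with hθ
  set τ' : ℚ := z1 * τ / (τ - z0) with hτ'
  set Fτ : Ω' → W := fun z => (1 - θ) • pos X D s (c0 z) + θ • pos X D s (c1 z) with hFτ
  have e1 : H q Fτ = phi p X D (s * (1 - θ)) (s * θ) := by
    rw [← hZ.phic]
    apply H_congr hZ.law
    · apply det_of (fun u => u)
      intro z hz
      simp only [hFτ]
      unfold pos
      rw [← hZ.ic z hz]
      module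
    · apply det_of (fun u => u)
      intro z hz
      simp only [hFτ]
      unfold pos
      rw [← hZ.ic z hz]
      module
  have f1' : ∀ z, q z ≠ 0 → Fτ z = (s * (1 - θ) / τ) • pos X D τ (n0 z) +
      (s * θ / τ') • pos X D τ' (n1 z) := by
    intro z hz
    simp only [hFτ]
    rw [hZ.s0 z hz, hZ.s1 z hz]
    unfold pos
    rw [← hZ.iN z hz]
    exact v2 _ _ _ s z0 z1 τ hs hτ hz1 hτz hd
  have f2' : ∀ z, q z ≠ 0 → X (n0 z) + z0 • D (n0 z) + z1 • D (n1 z) =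
      (z0 / τ) • pos X D τ (n0 z) + (z1 / τ') • pos X D τ' (n1 z) := by
    intro z hz
    unfold pos
    rw [← hZ.iN z hz]
    exact v1 _ _ _ z0 z1 τ hτ hz1 hτz
  have hsub := submod' hZ.law
    (f := fun z => (pos X D τ (n0 z), pos X D τ' (n1 z)))
    (g := fun z => (Fτ z, (1 - k) • pos X D s (c0 z) + k • pos X D s (c1 z) + ε • D (f0 z)))
    (h := Fτ)
    (k := fun z => ((X (n0 z) + z0 • D (n0 z) + z1 • D (n1 z),
        (1 - k) • pos X D s (c0 z) + k • pos X D s (c1 z) + ε • D (f0 z)),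
        X (n0 z) + τ • D (n0 z)))
    (det_of (fun u => (s * (1 - θ) / τ) • u.1 + (s * θ / τ') • u.2) f1')
    (Det.fst _ _ _)
    (det_of (fun u => (((z0 / τ) • u.1.1 + (z1 / τ') • u.1.2, u.2.2), u.1.1)) (by
        intro z hz
        simp only
        rw [f2' z hz]
        rfl))
  have g1 : H q (fun z => (pos X D τ (n0 z), pos X D τ' (n1 z))) ≤ 2 * h := by
    have := subadd hZ.law (f := fun z => pos X D τ (n0 z)) (g := fun z => pos X D τ' (n1 z))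
      (k := fun z => (pos X D τ (n0 z), pos X D τ' (n1 z))) (Det.refl _ _)
    have e3 : H q (fun z => pos X D τ (n0 z)) = H p (pos X D τ) := H_map hZ.mn0 (pos X D τ)
    have e4 : H q (fun z => pos X D τ' (n1 z)) = H p (pos X D τ') := H_map hZ.mn1 (pos X D τ')
    rw [e3, e4] at this
    linarith
  rw [e1] at hsub
  linarith

theorem Z : S_Z := by
  intro b T w hO hb s t k z0 z1 ε hs ht hst hz1 hε hz1s hzs hT hTT
  classical
  refine ⟨T ∪ T.image (fun τ => z1 * τ / (τ - z0)) ∪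
    (T ×ˢ T).image (fun u => s * th s z0 z1 u.1 * u.2 / (u.2 - s * (1 - th s z0 z1 u.1))) ∪
    (T ×ˢ T).image (fun u => chi s t k ε (th s z0 z1 u.1) u.2) ∪
    (T ×ˢ T).image (fun u => t * th2 s t (th s z0 z1 u.1) u.2 * chi s t k ε (th s z0 z1 u.1) u.2 /
      (chi s t k ε (th s z0 z1 u.1) u.2 - t * (1 - th2 s t (th s z0 z1 u.1) u.2))), ?_⟩
  intro Ω _ W _ _ p X D h HQ HW Ω' _ q c0 c1 n0 n1 f0 f1 hp hdet hF hZ
  have hw0 := hO.1
  have hw1 := hO.2.1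
  have hb1 : 0 < b - 1 := by linarith
  have hb0 : 0 < b := by linarith
  have F1 : ∀ τ ∈ T, H p (pos X D τ) ≤ h := fun τ hτ => hF τ (by
    simp only [mem_union]; exact Or.inl (Or.inl (Or.inl (Or.inl hτ))))
  have F2 : ∀ τ ∈ T, H p (pos X D (z1 * τ / (τ - z0))) ≤ h := fun τ hτ => hF _ (by
    simp only [mem_union]
    exact Or.inl (Or.inl (Or.inl (Or.inr (mem_image.mpr ⟨τ, hτ, rfl⟩)))))
  have F3 : ∀ τ ∈ T, ∀ σ ∈ T,
      H p (pos X D (s * th s z0 z1 τ * σ / (σ - s * (1 - th s z0 z1 τ)))) ≤ h :=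
    fun τ hτ σ hσ => hF _ (by
      simp only [mem_union]
      exact Or.inl (Or.inl (Or.inr (mem_image.mpr ⟨(τ, σ), mem_product.mpr ⟨hτ, hσ⟩, rfl⟩))))
  have F4 : ∀ τ ∈ T, ∀ σ ∈ T, H p (pos X D (chi s t k ε (th s z0 z1 τ) σ)) ≤ h :=
    fun τ hτ σ hσ => hF _ (by
      simp only [mem_union]
      exact Or.inl (Or.inr (mem_image.mpr ⟨(τ, σ), mem_product.mpr ⟨hτ, hσ⟩, rfl⟩)))
  have F5 : ∀ τ ∈ T, ∀ σ ∈ T, H p (pos X D (t * th2 s t (th s z0 z1 τ) σ *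
      chi s t k ε (th s z0 z1 τ) σ / (chi s t k ε (th s z0 z1 τ) σ -
        t * (1 - th2 s t (th s z0 z1 τ) σ)))) ≤ h :=
    fun τ hτ σ hσ => hF _ (by
      simp only [mem_union]
      exact Or.inr (mem_image.mpr ⟨(τ, σ), mem_product.mpr ⟨hτ, hσ⟩, rfl⟩))
  -- the upper bound for `lam τ`
  set κ : Ω' → W := fun z =>
    (1 - k) • pos X D s (c0 z) + k • pos X D s (c1 z) + ε • D (f0 z) with hκ
  set lam : ℚ → Ω' → W × W := fun τ z =>
    ((1 - th s z0 z1 τ) • pos X D s (c0 z) + th s z0 z1 τ • pos X D s (c1 z), κ z) with hlam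
  have hlamb : ∀ τ ∈ T, H q (lam τ) ≤ (b * (4 * h - ∑ σ ∈ T, w σ *
      phi p X D (t * (1 - th2 s t (th s z0 z1 τ) σ)) (t * th2 s t (th s z0 z1 τ) σ)) - HQ) /
        (b - 1) := by
    intro τ hτ
    obtain ⟨hτ0, hτs, hτt, hτd, hτz, hkθ, hsθt, h4⟩ := hT τ hτ
    have hθ : th s z0 z1 τ ≠ 0 := by
      unfold th
      exact div_ne_zero (mul_ne_zero hz1 (sub_ne_zero.mpr hτs)) (mul_ne_zero hs hτd)
    have hc := hO.cond' hZ.law (C := lam τ) (X := fun z => X (c0 z)) (D := fun z => D (c0 z))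
      (A := fun z => (D (c0 z), D (c1 z), D (f0 z), D (f1 z)))
      (by
        intro z z' hz hz' hh
        exact det_line hdet hZ.law hZ.mc0 hz hz' (congrArg Prod.snd hh))
      (detB hdet hZ k (th s z0 z1 τ) ε hs ht hθ hε)
    have hub : ∀ σ ∈ T, H q (fun z => (lam τ z, X (c0 z) + σ • D (c0 z))) ≤
        4 * h - phi p X D (t * (1 - th2 s t (th s z0 z1 τ) σ)) (t * th2 s t (th s z0 z1 τ) σ) := by
      intro σ hσ
      obtain ⟨hσ0, hσs, hσt, -, -, -, -, -⟩ := hT σ hσ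
      obtain ⟨g1, g2, g3, g4⟩ := hTT τ hτ σ hσ
      exact stepB hZ k (th s z0 z1 τ) ε σ (chi s t k ε (th s z0 z1 τ) σ) hs ht hθ hσ0 hσs hσt hkθ
        g1 rfl g2 g3 g4 (F1 σ hσ) (F3 τ hτ σ hσ) (F4 τ hτ σ hσ) (F5 τ hτ σ hσ)
    have hsum : ∑ σ ∈ T, w σ * (H q (fun z => (lam τ z, X (c0 z) + σ • D (c0 z))) - H q (lam τ)) ≤
        4 * h - ∑ σ ∈ T, w σ *
          phi p X D (t * (1 - th2 s t (th s z0 z1 τ) σ)) (t * th2 s t (th s z0 z1 τ) σ) -
        H q (lam τ) := by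
      have h1 : 4 * h - ∑ σ ∈ T, w σ *
          phi p X D (t * (1 - th2 s t (th s z0 z1 τ) σ)) (t * th2 s t (th s z0 z1 τ) σ) -
          H q (lam τ) = ∑ σ ∈ T, w σ * (4 * h -
          phi p X D (t * (1 - th2 s t (th s z0 z1 τ) σ)) (t * th2 s t (th s z0 z1 τ) σ) -
          H q (lam τ)) := by
        simp only [mul_sub, sum_sub_distrib, ← sum_mul, hw1, one_mul]
      rw [h1]
      apply sum_le_sum
      intro σ hσ
      apply mul_le_mul_of_nonneg_left _ (hw0 σ hσ)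
      have := hub σ hσ
      linarith
    rw [le_div_iff₀ hb1]
    have h2 := mul_le_mul_of_nonneg_left hsum hb0.le
    have h3 := hZ.hQ
    nlinarith
  -- the main inequality
  have hc := hO.cond' hZ.law
    (C := fun z => (X (n0 z) + z0 • D (n0 z) + z1 • D (n1 z), κ z))
    (X := fun z => X (n0 z)) (D := fun z => D (n0 z))
    (A := fun z => (D (c0 z), D (c1 z), D (n0 z), D (n1 z), D (f0 z), D (f1 z)))
    (by
      intro z z' hz hz' hh
      exact det_line hdet hZ.law hZ.mn0 hz hz' (congrArg Prod.snd hh))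
    (detA hdet hZ k z0 z1 ε hs ht hst hz1 hε)
  set ZZ : ℝ := H q (fun z => (X (n0 z) + z0 • D (n0 z) + z1 • D (n1 z), κ z)) with hZZ
  have hsum : ∑ τ ∈ T, w τ * (H q (fun z =>
      ((X (n0 z) + z0 • D (n0 z) + z1 • D (n1 z), κ z), X (n0 z) + τ • D (n0 z))) - ZZ) ≤
      2 * h + ∑ τ ∈ T, w τ * ((b * (4 * h - ∑ σ ∈ T, w σ *
          phi p X D (t * (1 - th2 s t (th s z0 z1 τ) σ)) (t * th2 s t (th s z0 z1 τ) σ)) - HQ) /
            (b - 1))
        - ∑ τ ∈ T, w τ * phi p X D (s * (1 - th s z0 z1 τ)) (s * th s z0 z1 τ) - ZZ := by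
    have h1 : 2 * h + ∑ τ ∈ T, w τ * ((b * (4 * h - ∑ σ ∈ T, w σ *
          phi p X D (t * (1 - th2 s t (th s z0 z1 τ) σ)) (t * th2 s t (th s z0 z1 τ) σ)) - HQ) /
            (b - 1))
        - ∑ τ ∈ T, w τ * phi p X D (s * (1 - th s z0 z1 τ)) (s * th s z0 z1 τ) - ZZ =
        ∑ τ ∈ T, w τ * (2 * h + ((b * (4 * h - ∑ σ ∈ T, w σ *
          phi p X D (t * (1 - th2 s t (th s z0 z1 τ) σ)) (t * th2 s t (th s z0 z1 τ) σ)) - HQ) /
            (b - 1)) - phi p X D (s * (1 - th s z0 z1 τ)) (s * th s z0 z1 τ) - ZZ) := by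
      have e : ∀ (A B : ℚ → ℝ), ∑ τ ∈ T, w τ * (2 * h + A τ - B τ - ZZ) =
          2 * h + ∑ τ ∈ T, w τ * A τ - ∑ τ ∈ T, w τ * B τ - ZZ := by
        intro A B
        have e1 : ∀ τ ∈ T, w τ * (2 * h + A τ - B τ - ZZ) =
            w τ * (2 * h - ZZ) + w τ * A τ - w τ * B τ := by
          intro τ _; ring
        rw [sum_congr rfl e1, sum_sub_distrib, sum_add_distrib, ← sum_mul, hw1]
        ring
      exact (e _ _).symm
    rw [h1]
    apply sum_le_sum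
    intro τ hτ
    apply mul_le_mul_of_nonneg_left _ (hw0 τ hτ)
    obtain ⟨hτ0, hτs, hτt, hτd, hτz, hkθ, hsθt, h4⟩ := hT τ hτ
    have h2 := stepA hZ k z0 z1 ε τ hs hz1 hτ0 hτz hτd (F1 τ hτ) (F2 τ hτ)
    have h3 := hlamb τ hτ
    have h5 : H q (fun z => ((X (n0 z) + z0 • D (n0 z) + z1 • D (n1 z), κ z),
        X (n0 z) + τ • D (n0 z))) ≤ 2 * h + H q (lam τ) -
          phi p X D (s * (1 - th s z0 z1 τ)) (s * th s z0 z1 τ) := h2
    linarith
  have h2 := mul_le_mul_of_nonneg_left hsum hb0.le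
  have h3 := hZ.hW
  change (b - 1) * ZZ ≤ _
  linarith

end Pool.Agent.W131.AK
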